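import Pool.Agent.Q206.ISC.Enum
import Pool.Agent.Q206.ISC.Inf

/-!
# Index sets of `Π⁰₁` classes with cardinality in a given set

Complete answer for all `C ⊆ ω`; see the claim file.
-/

namespace Pool.Agent.Results.MP_46183d_lc.AllCardinalitySets

open Pool.Agent.Helper446.CB Pool.Agent.Q206.ISC

theorem result : (∃ π, EffEnum π) ∧ ∀ π, EffEnum π →
    -- the two degenerate sets
    (∀ e, ¬ I π ∅ e) ∧ Complete (Sig 1) (I π {0}) ∧
    -- a class for every other set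
    (∀ C : Set ℕ, ¬ C ⊆ {0} → Complete (Gam C) (I π C)) ∧
    -- finite sets
    (∀ C : Set ℕ, C.Finite → ¬ C ⊆ {0} → 1 ∉ C →
      Even (switches C) ∧ 2 ≤ switches C ∧ Complete (DiffS2 (switches C)) (I π C)) ∧
    (∀ C : Set ℕ, C.Finite → 1 ∈ C →
      Odd (switches C) ∧ Complete (CoDiffS2 (switches C)) (I π C)) ∧
    -- infinite sets: computable, c.e., co-c.e., `Σ⁰₂` and `Π⁰₂` sets
    (∀ C : Set ℕ, C.Infinite → (REPred (fun n => n ∈ C) ∨ REPred fun n => n ∉ C) →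
      Complete (Sig 3) (I π C)) ∧
    (∀ C : Set ℕ, C.Infinite → (Sig 2 (fun n : ℕ => n ∈ C) ∨ Pi 2 fun n : ℕ => n ∈ C) →
      Complete (Sig 3) (I π C)) ∧
    -- infinite sets: exact criterion for `Σ⁰₃`-completeness
    (∀ C : Set ℕ, C.Infinite →
      (Complete (Sig 3) (I π C) ↔ Sig 3 (fun n : ℕ => n ∈ C) ∧ Sel C)) ∧
    -- arbitrary sets: position in the arithmetical hierarchy from level 3 on
    (∀ C : Set ℕ, ManyOneReducible (fun n : ℕ => n ∈ C) (I π C)) ∧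
    (∀ (C : Set ℕ) (n : ℕ), 3 ≤ n → (Sig n (I π C) ↔ Sig n fun m : ℕ => m ∈ C)) ∧
    (∀ (C : Set ℕ) (n : ℕ), 4 ≤ n → (Pi n (I π C) ↔ Pi n fun m : ℕ => m ∈ C)) ∧
    (∀ (C : Set ℕ) (n : ℕ), 3 ≤ n → Complete (Sig n) (fun m : ℕ => m ∈ C) →
      Complete (Sig n) (I π C)) ∧
    (∀ (C : Set ℕ) (n : ℕ), 4 ≤ n → Complete (Pi n) (fun m : ℕ => m ∈ C) →
      Complete (Pi n) (I π C)) ∧
    -- the criterion is not void: an infinite `C` with `I_C` in `Δ⁰₃`
    (∃ C : Set ℕ, C.Infinite ∧ Sig 3 (I π C) ∧ Pi 3 (I π C) ∧ ¬ Complete (Sig 3) (I π C)) := by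
  refine ⟨⟨stdEnum, stdEnum_eff⟩, fun π hπ => ?_⟩
  refine ⟨fun e h => h.2, ⟨?_, fun X hX => zero_hard hπ hX⟩, fun C hC => gam_complete hπ hC,
    fun C hC h0 h1 => ⟨?_, two_le_switches hC h0 h1, ?_, ?_⟩,
    fun C hC h1 => ⟨(one_mem_iff hC).1 h1, ?_, ?_⟩, ?_, fun C hC h => inf_two hπ hC h,
    fun C hC => inf_iff hπ hC, fun C => red_self hπ C, fun C n hn => sig_iff hπ C hn,
    fun C n hn => pi_iff hπ C hn, fun C n hn h => ⟨(sig_iff hπ C hn).2 h.1, fun X hX =>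
      (h.2 X hX).trans (red_self hπ C)⟩, fun C n hn h => ⟨(pi_iff hπ C hn).2 h.1, fun X hX =>
      (h.2 X hX).trans (red_self hπ C)⟩, ?_⟩
  · refine (zero_sig hπ).of_iff fun e => ?_
    unfold I
    constructor
    · intro h
      rw [h]
      simp
    · rintro ⟨h1, h2⟩
      exact (Set.ncard_eq_zero h1).1 h2
  · rw [← Nat.not_odd_iff_even]
    exact fun h => h1 ((one_mem_iff hC).2 h)
  · exact (gam_fin_not hC h1 _).1 (gam_upper hπ h0)
  · exact fun X hX => gam_hard hπ ((gam_fin_not hC h1 X).2 hX)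
  · refine (gam_fin_mem hC h1 _).1 (gam_upper hπ fun h => ?_)
    exact absurd (h h1) (by simp)
  · exact fun X hX => gam_hard hπ ((gam_fin_mem hC h1 X).2 hX)
  · rintro C hC (h | h)
    · exact inf_two hπ hC (Or.inl (sig_one.2 h).succ)
    · exact inf_two hπ hC (Or.inr (Pi.succ (pi_one.2 h)))
  · obtain ⟨C, hC, h1, h2⟩ := exists_delta hπ
    refine ⟨C, hC, h1, h2, fun h => ?_⟩
    obtain ⟨S, hS, hS'⟩ := exists_sig3_not_pi3
    exact hS' (pi_of_red (h.2 S hS) h2)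

end Pool.Agent.Results.MP_46183d_lc.AllCardinalitySets
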